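import Pool.Agent.Lib.P5135a5.Main

set_option autoImplicit false

namespace Pool.Agent.Results.MP_5135a5_co.Characterization

open Pool.Agent.Lib.P5135a5

/-- Explicit description of the structure: from an induced matching with `Γ(G)` edges. -/
theorem structure_of_matching {V : Type} [Fintype V] (G : SimpleGraph V) (S : Finset V)
    (hS : IsInducedMatchingSet G S) (hcard : S.card = 2 * upperDom G) :
    ∃ (a b : Fin (upperDom G) → V) (c : V → Fin (upperDom G)),
      (∀ i, G.Adj (a i) (b i)) ∧ (∀ i, c (a i) = i ∧ c (b i) = i) ∧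
      (∀ i j, i ≠ j → ¬ G.Adj (a i) (a j) ∧ ¬ G.Adj (a i) (b j) ∧ ¬ G.Adj (b i) (b j)) ∧
      (∀ v, (v = a (c v) ∨ G.Adj v (a (c v))) ∧ (v = b (c v) ∨ G.Adj v (b (c v)))) := by
  classical
  obtain ⟨C, hCS, _, hCI, hle⟩ := exists_choice G S hS (fun _ => True)
    (fun _ _ _ _ _ => Or.inl trivial)
  have hCle := indep_card_le G C hCI
  have hCcard : C.card = upperDom G := by omega
  -- partner function
  have hp : ∀ v : V, ∃ w, v ∈ S → (w ∈ S ∧ G.Adj v w) ∧ ∀ z, z ∈ S ∧ G.Adj v z → z = w := by
    intro v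
    by_cases hv : v ∈ S
    · obtain ⟨w, h1, h2⟩ := hS v hv
      exact ⟨w, fun _ => ⟨h1, h2⟩⟩
    · exact ⟨v, fun h => absurd h hv⟩
  choose π hπ using hp
  have hππ : ∀ v ∈ S, π (π v) = v := by
    intro v hv
    obtain ⟨⟨h1, h2⟩, _⟩ := hπ v hv
    exact ((hπ _ h1).2 v ⟨hv, h2.symm⟩).symm
  have hπinj : ∀ v ∈ S, ∀ w ∈ S, π v = π w → v = w := by
    intro v hv w hw h
    rw [← hππ v hv, ← hππ w hw, h]
  -- the set `S` is `C ∪ π(C)`
  have hdisj : Disjoint C (C.image π) := by
    rw [Finset.disjoint_left]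
    intro x hx hx'
    obtain ⟨y, hy, rfl⟩ := Finset.mem_image.mp hx'
    exact hCI y hy _ hx (hπ y (hCS hy)).1.2
  have himg : (C.image π).card = C.card :=
    Finset.card_image_of_injOn (fun v hv w hw h => hπinj v (hCS hv) w (hCS hw) h)
  have hunion : C ∪ C.image π = S := by
    apply Finset.eq_of_subset_of_card_le
    · intro x hx
      rcases Finset.mem_union.mp hx with h | h
      · exact hCS h
      · obtain ⟨y, hy, rfl⟩ := Finset.mem_image.mp h
        exact (hπ y (hCS hy)).1.1
    · rw [Finset.card_union_of_disjoint hdisj, himg]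
      omega
  let e : Fin (upperDom G) ≃ C := (finCongr hCcard.symm).trans C.equivFin.symm
  have hedge : ∀ v w, v ∈ S → w ∈ S → G.Adj v w → π v = w := by
    intro v w hv hw hvw
    exact ((hπ v hv).2 w ⟨hw, hvw⟩).symm
  -- every vertex is assigned to an edge
  have hcls : ∀ v : V, ∃ i : Fin (upperDom G), (v = (e i : V) ∨ G.Adj v (e i)) ∧
      (v = π (e i) ∨ G.Adj v (π (e i))) := by
    have hin : ∀ x ∈ S, ∃ i : Fin (upperDom G), x = (e i : V) ∨ x = π (e i) := by
      intro x hx
      rw [← hunion] at hx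
      rcases Finset.mem_union.mp hx with h | h
      · exact ⟨e.symm ⟨x, h⟩, Or.inl (by rw [Equiv.apply_symm_apply])⟩
      · obtain ⟨y, hy, rfl⟩ := Finset.mem_image.mp h
        exact ⟨e.symm ⟨y, hy⟩, Or.inr (by rw [Equiv.apply_symm_apply])⟩
    intro v
    by_cases hv : v ∈ S
    · obtain ⟨i, hi | hi⟩ := hin v hv
      · refine ⟨i, Or.inl hi, Or.inr ?_⟩
        rw [hi]
        exact (hπ _ (hCS (e i).2)).1.2
      · refine ⟨i, Or.inr ?_, Or.inl hi⟩
        rw [hi]
        exact (hπ _ (hCS (e i).2)).1.2.symm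
    · obtain ⟨x, hx, y, hy, hxy, h1, h2⟩ := outside G S hS hcard v hv
      obtain ⟨i, hi | hi⟩ := hin x hx
      · refine ⟨i, Or.inr (hi ▸ h1), Or.inr ?_⟩
        rw [← hi, hedge x y hx hy hxy]
        exact h2
      · refine ⟨i, Or.inr ?_, Or.inr (hi ▸ h1)⟩
        have h5 : π x = (e i : V) := by rw [hi, hππ _ (hCS (e i).2)]
        rw [← h5, hedge x y hx hy hxy]
        exact h2
  choose c hc using hcls
  have hci : ∀ i, c (e i) = i := by
    intro i
    by_contra hne
    obtain ⟨h1, h2⟩ := hc (e i)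
    rcases h1 with h1 | h1
    · exact hne (e.injective (Subtype.ext h1)).symm
    · exact hCI _ (e i).2 _ (e _).2 h1
  have hci' : ∀ i, c (π (e i)) = i := by
    intro i
    by_contra hne
    have hiS := hCS (e i).2
    have hjS := hCS (e (c (π (e i)))).2
    obtain ⟨h1, h2⟩ := hc (π (e i))
    rcases h1 with h1 | h1
    · have h3 := (hπ _ hiS).1.2
      rw [h1] at h3
      exact hCI _ (e i).2 _ (e _).2 h3
    · have h3 := hedge _ _ (hπ _ hiS).1.1 hjS h1
      rw [hππ _ hiS] at h3
      exact hne (e.injective (Subtype.ext h3)).symm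
  refine ⟨fun i => e i, fun i => π (e i), c, fun i => (hπ _ (hCS (e i).2)).1.2,
    fun i => ⟨hci i, hci' i⟩, ?_, hc⟩
  intro i j hij
  have hiS := hCS (e i).2
  have hjS := hCS (e j).2
  refine ⟨hCI _ (e i).2 _ (e j).2, ?_, ?_⟩
  · intro h
    have h3 := hedge _ _ hiS (hπ _ hjS).1.1 h
    exact hij (e.injective (Subtype.ext (hπinj _ hiS _ hjS h3)))
  · intro h
    have h3 := hedge _ _ (hπ _ hiS).1.1 (hπ _ hjS).1.1 h
    rw [hππ _ hiS] at h3
    -- `e i = π (e j)`, so `e i` and `e j` are adjacent
    have h4 := (hπ _ hjS).1.2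
    rw [← h3] at h4
    exact hCI _ (e j).2 _ (e i).2 h4

/-- Characterization of the graphs with `Γ_t(G) = 2 Γ(G)`. -/
theorem result {V : Type} [Fintype V] (G : SimpleGraph V) (hG : ∀ v, ∃ w, G.Adj v w) :
    List.TFAE [
      upperTotalDom G = 2 * upperDom G,
      inducedMatchingNum G = upperDom G,
      ∃ (k : ℕ) (a b : Fin k → V) (c : V → Fin k),
        (∀ i, G.Adj (a i) (b i)) ∧ (∀ i, c (a i) = i ∧ c (b i) = i) ∧
        (∀ i j, i ≠ j → ¬ G.Adj (a i) (a j) ∧ ¬ G.Adj (a i) (b j) ∧ ¬ G.Adj (b i) (b j)) ∧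
        (∀ v, (v = a (c v) ∨ G.Adj v (a (c v))) ∧ (v = b (c v) ∨ G.Adj v (b (c v)))) ∧
        ∀ S, Minimal (IsDominating G) S → S.card ≤ k] := by
  classical
  tfae_have 1 ↔ 2 := characterization G hG
  tfae_have 2 → 3 := by
    intro h
    obtain ⟨S, hS, hcard⟩ := exists_inducedMatchingNum G
    rw [h] at hcard
    obtain ⟨a, b, c, h1, h2, h3, h4⟩ := structure_of_matching G S hS hcard
    exact ⟨upperDom G, a, b, c, h1, h2, h3, h4, fun S hS => card_le_upperDom G hS⟩
  tfae_have 3 → 2 := by
    rintro ⟨k, a, b, c, h1, h2, h3, _, h5⟩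
    have hΓ : upperDom G ≤ k := by
      obtain ⟨S, hS, hcard⟩ := exists_upperDom G
      rw [← hcard]
      exact h5 S hS
    have ha : Function.Injective a := by
      intro i j hij
      rw [← (h2 i).1, ← (h2 j).1, hij]
    have hb : Function.Injective b := by
      intro i j hij
      rw [← (h2 i).2, ← (h2 j).2, hij]
    have hab : ∀ i j, a i ≠ b j := by
      intro i j hij
      have : i = j := by rw [← (h2 i).1, ← (h2 j).2, hij]
      subst this
      exact (h1 i).ne hij
    have hcardS : (Finset.univ.image a ∪ Finset.univ.image b).card = 2 * k := by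
      rw [Finset.card_union_of_disjoint, Finset.card_image_of_injective _ ha,
        Finset.card_image_of_injective _ hb, Finset.card_univ, Fintype.card_fin]
      · ring
      · rw [Finset.disjoint_left]
        intro x hx hx'
        obtain ⟨i, _, rfl⟩ := Finset.mem_image.mp hx
        obtain ⟨j, _, hj⟩ := Finset.mem_image.mp hx'
        exact hab i j hj.symm
    have hIM : IsInducedMatchingSet G (Finset.univ.image a ∪ Finset.univ.image b) := by
      intro v hv
      rcases Finset.mem_union.mp hv with hv | hv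
      · obtain ⟨i, _, rfl⟩ := Finset.mem_image.mp hv
        refine ⟨b i, ⟨?_, h1 i⟩, ?_⟩
        · rw [Finset.mem_union]
          exact Or.inr (Finset.mem_image_of_mem _ (Finset.mem_univ i))
        · rintro y ⟨hy1, hy2⟩
          rcases Finset.mem_union.mp hy1 with hy | hy
          · obtain ⟨j, _, rfl⟩ := Finset.mem_image.mp hy
            by_cases hij : i = j
            · subst hij
              exact absurd hy2 (fun h => h.ne rfl)
            · exact absurd hy2 (h3 i j hij).1
          · obtain ⟨j, _, rfl⟩ := Finset.mem_image.mp hy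
            by_cases hij : i = j
            · rw [hij]
            · exact absurd hy2 (h3 i j hij).2.1
      · obtain ⟨i, _, rfl⟩ := Finset.mem_image.mp hv
        refine ⟨a i, ⟨?_, (h1 i).symm⟩, ?_⟩
        · rw [Finset.mem_union]
          exact Or.inl (Finset.mem_image_of_mem _ (Finset.mem_univ i))
        · rintro y ⟨hy1, hy2⟩
          rcases Finset.mem_union.mp hy1 with hy | hy
          · obtain ⟨j, _, rfl⟩ := Finset.mem_image.mp hy
            by_cases hij : j = i
            · rw [hij]
            · exact absurd hy2.symm (h3 j i hij).2.1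
          · obtain ⟨j, _, rfl⟩ := Finset.mem_image.mp hy
            by_cases hij : i = j
            · subst hij
              exact absurd hy2 (fun h => h.ne rfl)
            · exact absurd hy2 (h3 i j hij).2.2
    have hk := card_le_inducedMatchingNum G hIM hcardS
    have := inducedMatchingNum_le G
    omega
  tfae_finish

end Pool.Agent.Results.MP_5135a5_co.Characterization
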