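import Pool.Agent.Lib.P5135s.Cover

set_option autoImplicit false

namespace Pool.Agent.Results.MP_5135a5_co.PerfectGraphs

open Pool.Agent.Lib.P5135a5 Pool.Agent.Lib.P5135s

/-- `G` is perfect: every induced subgraph has chromatic number equal to its clique number. -/
def Perfect {V : Type} (G : SimpleGraph V) : Prop :=
  ∀ U : Set V, (G.induce U).chromaticNumber = (G.induce U).cliqueNum

theorem perf_of_perfect {V : Type} [Fintype V] [DecidableEq V] {G : SimpleGraph V}
    (h : Perfect G) : Perf G := by
  classical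
  intro U
  have h1 := h (U : Set V)
  have hle : (G.induce (U : Set V)).cliqueNum ≤ om G U := by
    obtain ⟨s, hs⟩ := (G.induce (U : Set V)).exists_isNClique_cliqueNum
    have h2 : (s.map (Function.Embedding.subtype _)).card = (G.induce (U : Set V)).cliqueNum := by
      rw [Finset.card_map, hs.card_eq]
    rw [← h2]
    apply card_le_om
    · intro x hx y hy hxy
      obtain ⟨x', hx', rfl⟩ := Finset.mem_map.mp hx
      obtain ⟨y', hy', rfl⟩ := Finset.mem_map.mp hy
      exact hs.isClique hx' hy' (fun h => hxy (by rw [h]))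
    · intro x hx
      obtain ⟨x', hx', rfl⟩ := Finset.mem_map.mp hx
      exact x'.2
  have hcol : (G.induce (U : Set V)).Colorable (G.induce (U : Set V)).cliqueNum := by
    rw [← SimpleGraph.chromaticNumber_le_iff_colorable, h1]
  obtain ⟨C⟩ := hcol
  refine Col.mono ?_ hle
  refine ⟨fun v => if hv : v ∈ U then (C ⟨v, hv⟩ : ℕ) else 0, ?_, ?_⟩
  · intro u hu
    simp only [hu, dif_pos]
    exact (C ⟨u, hu⟩).2
  · intro u hu v hv huv
    simp only [hu, hv, dif_pos]
    intro h3
    exact C.valid (v := ⟨u, hu⟩) (w := ⟨v, hv⟩) huv (Fin.ext h3)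

/-- Graphs with `Γ_t(G) = 2 Γ(G)` whose vertex set is covered by `α(G)` cliques, that is, the
complement has chromatic number `α(G)`; in particular perfect and strongly perfect graphs. -/
theorem result {V : Type} [Fintype V] (G : SimpleGraph V) (hG : ∀ v, ∃ w, G.Adj v w) :
    (upperTotalDom G = 2 * upperDom G ∧ Gᶜ.chromaticNumber = G.indepNum ↔
      upperDom G = G.indepNum ∧ ∃ k, CliquePartition G k) ∧
    ((∃ k, CliquePartition G k) ↔
      inducedMatchingNum G = G.indepNum ∧ Gᶜ.chromaticNumber = G.indepNum) ∧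
    (Perfect G → Gᶜ.chromaticNumber = G.indepNum ∧ (upperTotalDom G = 2 * upperDom G ↔
      upperDom G = G.indepNum ∧ ∃ k, CliquePartition G k)) ∧
    (StronglyPerfect G → List.TFAE [upperTotalDom G = 2 * upperDom G,
      inducedMatchingNum G = G.indepNum, ∃ k, CliquePartition G k]) := by
  classical
  exact ⟨cover_iff hG, cover_im,
    fun h => ⟨(chromaticNumber_eq_iff G).2 (colorable_of_perf (perf_of_perfect h)),
      perfect_iff (perf_of_perfect h) hG⟩,
    fun h => stronglyPerfect_tfae h hG⟩

end Pool.Agent.Results.MP_5135a5_co.PerfectGraphs
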