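import Pool.Agent.Lib.P5135r.Red

set_option autoImplicit false

/-!
The complexity of recognising the graphs with `Γ_t = 2 Γ`.
-/

namespace Pool.Agent.Results.MP_5135a5_co.RecognitionComplexity

open Pool.Agent.Lib.P5135r Pool.Agent.Lib.P2ba8ab

/-- Recognising the graphs `G` without isolated vertices that satisfy `Γ_t(G) = 2 Γ(G)` is
equivalent, under polynomial-time many-one reductions in both directions, to deciding for two
graphs `A`, `B` with the same number of vertices whether `α(B) ≤ α(A)`; and both
3-colourability and non-3-colourability reduce to it in polynomial time. -/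
theorem result :
    Reduces Gr2.encode Gr.encode (fun g => g.B.indepNum ≤ g.A.indepNum) Extremal ∧
    Reduces Gr.encode Gr2.encode Extremal (fun g => g.B.indepNum ≤ g.A.indepNum) ∧
    Reduces Gr.encode Gr.encode (fun g => g.G.Colorable 3) Extremal ∧
    Reduces Gr.encode Gr.encode (fun g => ¬ g.G.Colorable 3) Extremal :=
  main_reductions

end Pool.Agent.Results.MP_5135a5_co.RecognitionComplexity
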