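import Pool.Agent.Lib.P5135n.Final4
import Pool.Agent.Lib.P5135n.Final5
import Pool.Agent.Lib.P5135n.TwoPt
import Pool.Agent.Lib.P5135n.IsoCls
import Pool.Agent.Lib.P5135n.Law
import Pool.Agent.Lib.P5135n.TV

/-!
# The typical structure and the number of the graphs with `Γ_t = 2 Γ`
-/

set_option autoImplicit false

open Filter Topology

namespace Pool.Agent.Results.MP_5135a5_co.TypicalStructure

open Pool.Agent.Lib.P5135a5 Pool.Agent.Lib.P5135n

/-- `Ext G`: `G` has no isolated vertex and `Γ_t(G) = 2 Γ(G)`. `PairG G T`: `T` is the vertex set of an induced matching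
and every vertex outside is adjacent to both ends of one of its edges. `SG G`: there is such a `T`.
(1) `Ext G` implies `SG G` for every finite graph.
(2) Almost every graph with `SG G` satisfies `Ext G` and has exactly one induced matching with `Γ(G)` edges.
(3) The number of graphs on `n` labelled vertices with `Ext G` is asymptotic to the sum of the `AA n k`.
(4) The logarithmic asymptotics, with `β = log 2 / log (4 / 3)`.
(5) For a uniform `G` with `Ext G` the law of `Γ(G)` is `AA n k / ∑ j, AA n j` up to `o(1)` in total variation; for some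
`κ n ~ β log₂ n`, almost every `G` with `Ext G` has `Γ(G) = κ n` or `Γ(G) = κ n + 1`.
(6) Almost every `G` with `Ext G` has diameter at most 2.
(7) The number of isomorphism classes with `Ext` is asymptotic to the number in (3) divided by `n!`, and to the number
of isomorphism classes with `SG`.
(8) The total variation distance between the uniform `G` with `Ext G` and the first component of the uniform `(G, T)`
with `PairG G T` tends to zero. -/
theorem result :
    (∀ (V : Type) [Fintype V] (G : SimpleGraph V), Ext G → SG G) ∧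
    Tendsto (fun n : ℕ => (Nat.card {G : SimpleGraph (Fin n) // SG G ∧ Ext G ∧
        ∃! T : Finset (Fin n), IsInducedMatchingSet G T ∧ T.card = 2 * upperDom G} : ℝ) /
      Nat.card {G : SimpleGraph (Fin n) // SG G}) atTop (𝓝 1) ∧
    Tendsto (fun n : ℕ => (Nat.card {G : SimpleGraph (Fin n) // Ext G} : ℝ) /
      ∑ k ∈ Finset.Icc 1 (n / 2), AA n k) atTop (𝓝 1) ∧
    Tendsto (fun n : ℕ => Real.logb 2 ((2 : ℝ) ^ (n.choose 2) / Nat.card {G : SimpleGraph (Fin n) // Ext G}) /
      (Real.logb 2 n) ^ 2) atTop (𝓝 (2 * (Real.log 2 / Real.log (4 / 3)) * (Real.log 2 / Real.log (4 / 3) - 1))) ∧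
    (Tendsto (fun n : ℕ => ∑ k ∈ Finset.Icc 1 (n / 2),
        |(Nat.card {G : SimpleGraph (Fin n) // Ext G ∧ upperDom G = k} : ℝ) / Nat.card {G : SimpleGraph (Fin n) // Ext G} -
          AA n k / ∑ j ∈ Finset.Icc 1 (n / 2), AA n j|) atTop (𝓝 0) ∧
      ∃ κ : ℕ → ℕ, Tendsto (fun n : ℕ => (κ n : ℝ) / Real.logb 2 n) atTop (𝓝 (Real.log 2 / Real.log (4 / 3))) ∧
        Tendsto (fun n : ℕ =>
            (Nat.card {G : SimpleGraph (Fin n) // Ext G ∧ (upperDom G = κ n ∨ upperDom G = κ n + 1)} : ℝ) /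
          Nat.card {G : SimpleGraph (Fin n) // Ext G}) atTop (𝓝 1)) ∧
    Tendsto (fun n : ℕ => (Nat.card {G : SimpleGraph (Fin n) // Ext G ∧
        ∀ u v, u = v ∨ G.Adj u v ∨ ∃ w, G.Adj u w ∧ G.Adj w v} : ℝ) /
      Nat.card {G : SimpleGraph (Fin n) // Ext G}) atTop (𝓝 1) ∧
    (Tendsto (fun n : ℕ => (Nat.card (Quot fun G H : {G : SimpleGraph (Fin n) // Ext G} => Nonempty (G.1 ≃g H.1)) : ℝ) *
        n.factorial / Nat.card {G : SimpleGraph (Fin n) // Ext G}) atTop (𝓝 1) ∧
      Tendsto (fun n : ℕ => (Nat.card (Quot fun G H : {G : SimpleGraph (Fin n) // Ext G} => Nonempty (G.1 ≃g H.1)) : ℝ) /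
        Nat.card (Quot fun G H : {G : SimpleGraph (Fin n) // SG G} => Nonempty (G.1 ≃g H.1))) atTop (𝓝 1)) ∧
    ∀ ε : ℝ, 0 < ε → ∀ᶠ n : ℕ in atTop, ∀ P : SimpleGraph (Fin n) → Prop,
      |(Nat.card {G : SimpleGraph (Fin n) // Ext G ∧ P G} : ℝ) / Nat.card {G : SimpleGraph (Fin n) // Ext G} -
        (Nat.card {x : SimpleGraph (Fin n) × Finset (Fin n) // PairG x.1 x.2 ∧ P x.1} : ℝ) /
          Nat.card {x : SimpleGraph (Fin n) × Finset (Fin n) // PairG x.1 x.2}| ≤ ε :=
  ⟨fun _ _ _ h => sg_of_ext h, structure_suffices, exact_asymptotics, main_limit, ⟨gamma_law, two_points⟩, diam_two,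
    ⟨iso_asymptotics, iso_ratio⟩, tv_pairs⟩

end Pool.Agent.Results.MP_5135a5_co.TypicalStructure
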